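import Pool.Agent.W_MP_be22fd_co_rk.LG

/-! # The Cauchy mean is self-adjoint; transfer

For a bounded function `p` with bounded support and `u` of logarithmic growth,
`∫ p (Ph u) = ∫ (Ph p) u`.  `Mu h p u = ∫ p (Ph u - u)` is the mass of `u` against `p`.
Transfer: if `v ≤ u`, with equality where `Ph p < p`, then `Mu h p v ≤ Mu h p u`. -/

set_option autoImplicit false

noncomputable section

open MeasureTheory Set Complex
open scoped Real ENNReal

namespace Pool.Agent.Be22R

/-- Bounded measurable functions with bounded support. -/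
structure TF (p : ℝ → ℝ) : Prop where
  meas : Measurable p
  bdd : ∃ M, ∀ x, |p x| ≤ M
  supp : ∃ A, ∀ x, A < |x| → p x = 0

theorem TF.LG {p : ℝ → ℝ} (hp : TF p) : LG p := by
  obtain ⟨M, hM⟩ := hp.bdd
  exact LG.mono hp.meas (LG_const M) fun x => (hM x).trans (le_abs_self M)

theorem TF.add {p q : ℝ → ℝ} (hp : TF p) (hq : TF q) : TF (fun x => p x + q x) := by
  obtain ⟨M, hM⟩ := hp.bdd
  obtain ⟨N, hN⟩ := hq.bdd
  obtain ⟨A, hA⟩ := hp.supp
  obtain ⟨B, hB⟩ := hq.supp
  refine ⟨hp.meas.add hq.meas, ⟨M + N, fun x => (abs_add_le _ _).trans (add_le_add (hM x) (hN x))⟩,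
    ⟨max A B, fun x hx => ?_⟩⟩
  rw [hA x (lt_of_le_of_lt (le_max_left _ _) hx), hB x (lt_of_le_of_lt (le_max_right _ _) hx),
    add_zero]

theorem TF.const_mul {p : ℝ → ℝ} (hp : TF p) (c : ℝ) : TF (fun x => c * p x) := by
  obtain ⟨M, hM⟩ := hp.bdd
  obtain ⟨A, hA⟩ := hp.supp
  refine ⟨hp.meas.const_mul c, ⟨|c| * M, fun x => ?_⟩, ⟨A, fun x hx => ?_⟩⟩
  · rw [abs_mul]
    exact mul_le_mul_of_nonneg_left (hM x) (abs_nonneg c)
  · rw [hA x hx, mul_zero]

theorem TF_zero : TF (fun _ => 0) :=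
  ⟨measurable_const, ⟨0, fun _ => by simp⟩, ⟨0, fun _ _ => rfl⟩⟩

theorem TF_sum {ι : Type*} (s : Finset ι) {p : ι → ℝ → ℝ} (hp : ∀ i ∈ s, TF (p i)) :
    TF (fun x => ∑ i ∈ s, p i x) := by
  classical
  induction s using Finset.induction_on with
  | empty => simpa using TF_zero
  | insert a s ha ih =>
    have h1 := (hp a (Finset.mem_insert_self a s)).add
      (ih fun i hi => hp i (Finset.mem_insert_of_mem hi))
    simpa [Finset.sum_insert ha] using h1

theorem TF_indicator {s : Set ℝ} (hs : MeasurableSet s) {A : ℝ} (hA : s ⊆ Icc (-A) A) :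
    TF (s.indicator fun _ => (1 : ℝ)) := by
  refine ⟨measurable_const.indicator hs, ⟨1, fun x => ?_⟩, ⟨A, fun x hx => ?_⟩⟩
  · by_cases h : x ∈ s
    · rw [indicator_of_mem h, abs_one]
    · rw [indicator_of_notMem h, abs_zero]; exact zero_le_one
  · refine indicator_of_notMem (fun h => ?_) _
    exact absurd (abs_le.2 (hA h)) (not_le.2 hx)

/-- Nonnegative test functions bounded by a test function. -/
theorem TF.of_le {p q : ℝ → ℝ} (hq : TF q) (hm : Measurable p) (h : ∀ x, |p x| ≤ |q x|) :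
    TF p := by
  obtain ⟨M, hM⟩ := hq.bdd
  obtain ⟨A, hA⟩ := hq.supp
  refine ⟨hm, ⟨M, fun x => (h x).trans (hM x)⟩, ⟨A, fun x hx => ?_⟩⟩
  have := h x
  rw [hA x hx, abs_zero] at this
  exact abs_eq_zero.1 (le_antisymm this (abs_nonneg _))

variable {p u v : ℝ → ℝ}

theorem prod_int (hp : TF p) (hu : LG u) (h : ℝ) :
    Integrable (fun q : ℝ × ℝ => p q.1 * u (q.1 + h * tau q.2)) (volume.prod kap) := by
  obtain ⟨M, hM⟩ := hp.bdd
  obtain ⟨A, hA⟩ := hp.supp
  have h1 : (fun q : ℝ × ℝ => p q.1 * u (q.1 + h * tau q.2)) =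
      (Icc (-A) A ×ˢ univ).indicator (fun q : ℝ × ℝ => p q.1 * u (q.1 + h * tau q.2)) := by
    funext q
    by_cases hq : q ∈ Icc (-A) A ×ˢ (univ : Set ℝ)
    · rw [indicator_of_mem hq]
    · rw [indicator_of_notMem hq, hA q.1, zero_mul]
      by_contra h2
      push Not at h2
      exact hq ⟨abs_le.1 h2, mem_univ _⟩
  rw [h1, integrable_indicator_iff (measurableSet_Icc.prod MeasurableSet.univ), IntegrableOn]
  have e6 : (volume.restrict (Icc (-A) A)).prod kap =
      (volume.prod kap).restrict (Icc (-A) A ×ˢ univ) := by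
    rw [← Measure.prod_restrict, Measure.restrict_univ]
  rw [← e6]
  exact (hu.prod h A).bdd_mul (c := M) (hp.meas.comp measurable_fst).aestronglyMeasurable
    (Filter.Eventually.of_forall fun q => by rw [Real.norm_eq_abs]; exact hM _)

theorem prod_int' (hp : TF p) (hu : LG u) (h : ℝ) :
    Integrable (fun q : ℝ × ℝ => p (q.1 - h * tau q.2) * u q.1) (volume.prod kap) := by
  have h1 := prod_int hp hu h
  have hm1 : Measurable (fun q : ℝ × ℝ => p q.1 * u (q.1 + h * tau q.2)) :=
    (hp.meas.comp measurable_fst).mul (hu.meas.comp (shear_meas h))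
  have hm2 : Measurable (fun q : ℝ × ℝ => p (q.1 - h * tau q.2) * u q.1) := by
    refine (hp.meas.comp ?_).mul (hu.meas.comp measurable_fst)
    exact measurable_fst.sub ((tau_meas.comp measurable_snd).const_mul h)
  rw [integrable_prod_iff' hm1.aestronglyMeasurable] at h1
  rw [integrable_prod_iff' hm2.aestronglyMeasurable]
  obtain ⟨h2, h3⟩ := h1
  constructor
  · filter_upwards [h2] with θ h4
    have := h4.comp_sub_right (h * tau θ)
    simpa only [sub_add_cancel] using this
  · refine h3.congr (Filter.Eventually.of_forall fun θ => ?_)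
    have := integral_sub_right_eq_self (μ := (volume : Measure ℝ))
      (fun x => ‖p x * u (x + h * tau θ)‖) (h * tau θ)
    simp only [sub_add_cancel] at this
    exact this.symm

theorem int_left (hp : TF p) (hu : LG u) (h : ℝ) :
    Integrable (fun x => p x * Ph h u x) := by
  have h1 := (prod_int hp hu h).integral_prod_left
  refine h1.congr (Filter.Eventually.of_forall fun x => ?_)
  simp only
  rw [integral_const_mul]
  rfl

theorem Ph_symm (h : ℝ) (u : ℝ → ℝ) (x : ℝ) : ∫ θ, u (x - h * tau θ) ∂kap = Ph h u x := by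
  have := integral_symm fun t => u (x + h * t)
  rw [Ph, ← this]
  congr 1
  funext θ
  congr 1
  ring

theorem int_right (hp : TF p) (hu : LG u) (h : ℝ) :
    Integrable (fun x => Ph h p x * u x) := by
  have h1 := (prod_int' hp hu h).integral_prod_left
  refine h1.congr (Filter.Eventually.of_forall fun x => ?_)
  simp only
  rw [integral_mul_const, Ph_symm]

/-- The Cauchy mean is self-adjoint. -/
theorem adj (hp : TF p) (hu : LG u) (h : ℝ) :
    ∫ x, p x * Ph h u x = ∫ x, Ph h p x * u x := by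
  have h1 : ∀ x, p x * Ph h u x = ∫ θ, p x * u (x + h * tau θ) ∂kap := by
    intro x
    rw [integral_const_mul]
    rfl
  have h2 : ∀ x, Ph h p x * u x = ∫ θ, p (x - h * tau θ) * u x ∂kap := by
    intro x
    rw [integral_mul_const, Ph_symm]
  simp_rw [h1, h2]
  have h3 := integral_integral_swap (f := fun x θ => p x * u (x + h * tau θ)) (prod_int hp hu h)
  have h4 := integral_integral_swap (f := fun x θ => p (x - h * tau θ) * u x) (prod_int' hp hu h)
  rw [h3, h4]
  congr 1
  funext θ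
  have := integral_sub_right_eq_self (μ := (volume : Measure ℝ))
    (fun x => p x * u (x + h * tau θ)) (h * tau θ)
  simp only [sub_add_cancel] at this
  exact this.symm

theorem int_self (hp : TF p) (hu : LG u) : Integrable (fun x => p x * u x) := by
  have h1 := int_left hp hu 0
  refine h1.congr (Filter.Eventually.of_forall fun x => ?_)
  simp [Ph]

/-- The mass of `u` against the test function `p`. -/
def Mu (h : ℝ) (p u : ℝ → ℝ) : ℝ := ∫ x, p x * (Ph h u x - u x)

theorem Mu_int (hp : TF p) (hu : LG u) (h : ℝ) :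
    Integrable (fun x => p x * (Ph h u x - u x)) := by
  refine ((int_left hp hu h).sub (int_self hp hu)).congr (Filter.Eventually.of_forall fun x => ?_)
  simp only [Pi.sub_apply]
  ring

theorem Mu_eq (hp : TF p) (hu : LG u) (h : ℝ) :
    Mu h p u = ∫ x, (Ph h p x - p x) * u x := by
  unfold Mu
  have h1 : ∀ x, p x * (Ph h u x - u x) = p x * Ph h u x - p x * u x := fun x => by ring
  have h2 : ∀ x, (Ph h p x - p x) * u x = Ph h p x * u x - p x * u x := fun x => by ring
  simp_rw [h1, h2]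
  rw [integral_sub (int_left hp hu h) (int_self hp hu),
    integral_sub (int_right hp hu h) (int_self hp hu), adj hp hu h]

theorem dual_int (hp : TF p) (hu : LG u) (h : ℝ) :
    Integrable (fun x => (Ph h p x - p x) * u x) := by
  refine ((int_right hp hu h).sub (int_self hp hu)).congr (Filter.Eventually.of_forall fun x => ?_)
  simp only [Pi.sub_apply]
  ring

/-- The transfer identity. -/
theorem transfer_eq (hp : TF p) (hu : LG u) (hv : LG v) (h : ℝ) :
    Mu h p u - Mu h p v = ∫ x, (Ph h p x - p x) * (u x - v x) := by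
  rw [Mu_eq hp hu, Mu_eq hp hv, ← integral_sub (dual_int hp hu h) (dual_int hp hv h)]
  congr 1
  funext x
  ring

/-- Transfer with an error term. -/
theorem transfer_err (hp : TF p) (hu : LG u) (hv : LG v) (h : ℝ) {N : ℝ → ℝ} (hN : Integrable N)
    (hw : ∀ᵐ x, -N x ≤ (Ph h p x - p x) * (u x - v x)) :
    Mu h p v - ∫ x, N x ≤ Mu h p u := by
  have h1 := transfer_eq hp hu hv h
  have h2 : ∫ x, -N x ≤ ∫ x, (Ph h p x - p x) * (u x - v x) :=
    integral_mono_ae hN.neg (dual_int hp (hu.sub hv) h) hw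
  rw [integral_neg, ← h1] at h2
  linarith

/-- Transfer. -/
theorem transfer (hp : TF p) (hu : LG u) (hv : LG v) (h : ℝ)
    (hw : ∀ᵐ x, 0 ≤ (Ph h p x - p x) * (u x - v x)) : Mu h p v ≤ Mu h p u := by
  have := transfer_err hp hu hv h (N := fun _ => 0) (integrable_zero _ _ _) (by simpa using hw)
  simpa using this

theorem Mu_add {p q : ℝ → ℝ} (hp : TF p) (hq : TF q) (hu : LG u) (h : ℝ) :
    Mu h (fun x => p x + q x) u = Mu h p u + Mu h q u := by
  unfold Mu
  rw [← integral_add (Mu_int hp hu h) (Mu_int hq hu h)]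
  congr 1
  funext x
  ring

theorem Mu_const_mul (c h : ℝ) : Mu h (fun x => c * p x) u = c * Mu h p u := by
  unfold Mu
  rw [← integral_const_mul]
  congr 1
  funext x
  ring

theorem Mu_sum {ι : Type*} (s : Finset ι) {p : ι → ℝ → ℝ} (hp : ∀ i ∈ s, TF (p i)) (hu : LG u)
    (h : ℝ) : Mu h (fun x => ∑ i ∈ s, p i x) u = ∑ i ∈ s, Mu h (p i) u := by
  unfold Mu
  rw [← integral_finsetSum s fun i hi => Mu_int (hp i hi) hu h]
  congr 1
  funext x
  rw [Finset.sum_mul]

/-- Subharmonicity on the line: `u ≤ Ph u` almost everywhere. -/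
def Sub (h : ℝ) (u : ℝ → ℝ) : Prop := ∀ᵐ x, u x ≤ Ph h u x

theorem Mu_mono {p q : ℝ → ℝ} (hp : TF p) (hq : TF q) (hu : LG u) {h : ℝ} (hs : Sub h u)
    (hle : ∀ x, p x ≤ q x) : Mu h p u ≤ Mu h q u := by
  refine integral_mono_ae (Mu_int hp hu h) (Mu_int hq hu h) ?_
  filter_upwards [hs] with x hx
  exact mul_le_mul_of_nonneg_right (hle x) (by linarith)

theorem Mu_nonneg (hp : TF p) (hu : LG u) {h : ℝ} (hs : Sub h u) (h0 : ∀ x, 0 ≤ p x) :
    0 ≤ Mu h p u := by
  have := Mu_mono TF_zero hp hu hs h0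
  refine le_trans (le_of_eq ?_) this
  simp [Mu]

theorem Ph_mono_ae {h x : ℝ} (hu : LG u) (hv : LG v) (hle : ∀ᵐ θ ∂kap,
    u (x + h * tau θ) ≤ v (x + h * tau θ)) : Ph h u x ≤ Ph h v x :=
  integral_mono_ae (hu.sec h x) (hv.sec h x) hle

theorem Ph_add {h x : ℝ} (hu : LG u) (hv : LG v) :
    Ph h (fun x => u x + v x) x = Ph h u x + Ph h v x :=
  integral_add (hu.sec h x) (hv.sec h x)

theorem Ph_sub {h x : ℝ} (hu : LG u) (hv : LG v) :
    Ph h (fun x => u x - v x) x = Ph h u x - Ph h v x :=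
  integral_sub (hu.sec h x) (hv.sec h x)

theorem Ph_const_mul {h x : ℝ} (c : ℝ) : Ph h (fun x => c * u x) x = c * Ph h u x :=
  integral_const_mul c _

theorem Ph_const {h x : ℝ} (c : ℝ) : Ph h (fun _ => c) x = c := by
  unfold Ph
  rw [integral_const]
  simp

theorem Ph_sum {ι : Type*} (s : Finset ι) {u : ι → ℝ → ℝ} (hu : ∀ i ∈ s, LG (u i)) (h x : ℝ) :
    Ph h (fun x => ∑ i ∈ s, u i x) x = ∑ i ∈ s, Ph h (u i) x :=
  integral_finsetSum s fun i hi => (hu i hi).sec h x

theorem Ph_msum (s : Multiset ℂ) {u : ℂ → ℝ → ℝ} (hu : ∀ z, LG (u z)) (h x : ℝ) :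
    Ph h (fun x => (s.map fun z => u z x).sum) x = (s.map fun z => Ph h (u z) x).sum := by
  induction s using Multiset.induction_on with
  | empty => simp [Ph]
  | cons a s ih =>
    simp only [Multiset.map_cons, Multiset.sum_cons]
    rw [Ph_add (hu a) (LG_msum s hu), ih]

end Pool.Agent.Be22R
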