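import Pool.Agent.W_MP_be22fd_co_rk.Adj

/-! # Official definitions of the real line calculus (MP_be22fd_co)

`mx L x` is the maximum of `|P(x)|`, `P ∈ L`; `lmx L = log (mx L)`; `U S` is the logarithm of the
spread of the finite system `S`; `mass h u A` is the mass of `u` on `A`.
`Forced S g a b`: for all small `h` the mass of `U S` near `[a, b]`, outside every admissible hole,
is at least `g`. -/

set_option autoImplicit false

noncomputable section

open MeasureTheory Set Polynomial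
open scoped Real ENNReal

namespace Pool.Agent.Be22R

/-- The maximum of the absolute values at `x`. -/
def mx (L : Finset ℝ[X]) (x : ℝ) : ℝ := ((L.sup fun P => ‖P.eval x‖₊ : NNReal) : ℝ)

/-- The logarithm of the maximum. -/
def lmx (L : Finset ℝ[X]) (x : ℝ) : ℝ := Real.log (mx L x)

open scoped Classical in
/-- All differences of elements of `S`. -/
def diffs (S : Finset ℝ[X]) : Finset ℝ[X] := (S ×ˢ S).image fun q => q.1 - q.2

/-- The logarithm of the spread. -/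
def U (S : Finset ℝ[X]) : ℝ → ℝ := lmx (diffs S)

/-- The mass on a set. -/
def mass (h : ℝ) (u : ℝ → ℝ) (A : Set ℝ) : ℝ := (∫ x in A, (Ph h u x - u x)) / (π * h)

/-- The interval `[a, b]` enlarged by `1/16` of its length and by `δ` on both sides. -/
def Nb (δ a b : ℝ) : Set ℝ := Icc (a - (b - a) / 16 - δ) (b + (b - a) / 16 + δ)

/-- The system `S` has mass `g` near `[a, b]`, outside every admissible hole. -/
def Forced (S : Finset ℝ[X]) (g a b : ℝ) : Prop :=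
  a ≤ b ∧ ∀ δ, 0 < δ → ∃ h₀, 0 < h₀ ∧ ∀ h, 0 < h → h < h₀ → ∀ c r, δ ≤ r →
    (c + 3 * r ≤ a ∨ b ≤ c - 3 * r) → g ≤ mass h (U S) (Nb δ a b \ Icc (c - r) (c + r))

/-- The spread of `S` at `x` is at most `E` times the spread of `S'` (helper86's `Dom`). -/
def Dom (E : ℝ) (S S' : Finset ℝ[X]) (x : ℝ) : Prop :=
  ∀ P ∈ S, ∀ Q ∈ S, ∃ P' ∈ S', ∃ Q' ∈ S', |P.eval x - Q.eval x| ≤ E * |P'.eval x - Q'.eval x|

theorem mx_nonneg (L : Finset ℝ[X]) (x : ℝ) : 0 ≤ mx L x := NNReal.coe_nonneg _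

theorem le_mx {L : Finset ℝ[X]} {P : ℝ[X]} (hP : P ∈ L) (x : ℝ) : |P.eval x| ≤ mx L x := by
  have h : ‖P.eval x‖₊ ≤ L.sup fun P => ‖P.eval x‖₊ := Finset.le_sup (f := fun P : ℝ[X] =>
    ‖P.eval x‖₊) hP
  have h1 : ((‖P.eval x‖₊ : NNReal) : ℝ) ≤ mx L x := by exact_mod_cast h
  simpa using h1

theorem mx_le {L : Finset ℝ[X]} {x c : ℝ} (hc : 0 ≤ c) (h : ∀ P ∈ L, |P.eval x| ≤ c) :
    mx L x ≤ c := by
  have h1 : (L.sup fun P => ‖P.eval x‖₊) ≤ ⟨c, hc⟩ := by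
    refine Finset.sup_le fun P hP => ?_
    rw [← NNReal.coe_le_coe]
    exact (le_of_eq (by simp)).trans (h P hP)
  exact_mod_cast h1

theorem exists_mx {L : Finset ℝ[X]} (hL : L.Nonempty) (x : ℝ) : ∃ P ∈ L, mx L x = |P.eval x| := by
  obtain ⟨P, hP, h⟩ := Finset.exists_mem_eq_sup L hL (fun P : ℝ[X] => ‖P.eval x‖₊)
  refine ⟨P, hP, ?_⟩
  rw [mx, h]
  simp

theorem mem_diffs {S : Finset ℝ[X]} {R : ℝ[X]} : R ∈ diffs S ↔ ∃ P ∈ S, ∃ Q ∈ S, P - Q = R := by
  classical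
  unfold diffs
  simp only [Finset.mem_image, Finset.mem_product, Prod.exists]
  constructor
  · rintro ⟨a, b, ⟨h1, h2⟩, h3⟩
    exact ⟨a, h1, b, h2, h3⟩
  · rintro ⟨a, h1, b, h2, h3⟩
    exact ⟨a, b, ⟨h1, h2⟩, h3⟩

end Pool.Agent.Be22R
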