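import Mathlib

/-! # The Cauchy mean of a function on the real line

`kap` is the normalised Lebesgue measure on `(0, 2π]`, `tau θ = tan (θ / 2)`, so that `tau` has the
Cauchy distribution under `kap`.  `Ph h u x` is the mean of the translates `u (x + h * tau θ)`.
For `Im z ≥ 0` the mean of `log |x - z|` is `log |x - z - i h|`. -/

set_option autoImplicit false

noncomputable section

open MeasureTheory Set Complex
open scoped Real ENNReal

namespace Pool.Agent.Be22R

/-- The normalised Lebesgue measure on `(0, 2π]`. -/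
def kap : Measure ℝ := (ENNReal.ofReal (2 * π)⁻¹) • volume.restrict (Ioc 0 (2 * π))

instance kap_prob : IsProbabilityMeasure kap := by
  constructor
  unfold kap
  rw [Measure.smul_apply, Measure.restrict_apply MeasurableSet.univ, univ_inter, Real.volume_Ioc,
    sub_zero, smul_eq_mul, ← ENNReal.ofReal_mul (by positivity), inv_mul_cancel₀ (by positivity)]
  exact ENNReal.ofReal_one

/-- The Cauchy variable. -/
def tau (θ : ℝ) : ℝ := Real.tan (θ / 2)

theorem tau_meas : Measurable tau := by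
  have h : tau = fun θ => Real.sin (θ / 2) / Real.cos (θ / 2) := by
    funext θ
    rw [tau, Real.tan_eq_sin_div_cos]
  rw [h]
  fun_prop

/-- The Cauchy mean with the parameter `h`. -/
def Ph (h : ℝ) (u : ℝ → ℝ) (x : ℝ) : ℝ := ∫ θ, u (x + h * tau θ) ∂kap

theorem integral_kap (f : ℝ → ℝ) : ∫ θ, f θ ∂kap = (2 * π)⁻¹ * ∫ θ in (0 : ℝ)..(2 * π), f θ := by
  unfold kap
  rw [integral_smul_measure, intervalIntegral.integral_of_le (by positivity),
    ENNReal.toReal_ofReal (by positivity), smul_eq_mul]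

theorem integrable_kap {f : ℝ → ℝ} :
    Integrable f kap ↔ IntervalIntegrable f volume 0 (2 * π) := by
  unfold kap
  rw [intervalIntegrable_iff_integrableOn_Ioc_of_le (by positivity), IntegrableOn,
    integrable_smul_measure (by simp [Real.pi_pos]) ENNReal.ofReal_ne_top]

theorem integral_symm (f : ℝ → ℝ) : ∫ θ, f (- tau θ) ∂kap = ∫ θ, f (tau θ) ∂kap := by
  rw [integral_kap, integral_kap]
  congr 1
  have h := intervalIntegral.integral_comp_sub_left (a := 0) (b := 2 * π)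
    (fun θ => f (tau θ)) (2 * π)
  simp only [sub_zero, sub_self] at h
  rw [← h]
  congr 1
  funext θ
  congr 1
  unfold tau
  rw [show (2 * π - θ) / 2 = π - θ / 2 by ring, Real.tan_pi_sub]

theorem integrable_symm {f : ℝ → ℝ} (hf : Integrable (fun θ => f (tau θ)) kap) :
    Integrable (fun θ => f (- tau θ)) kap := by
  rw [integrable_kap] at hf ⊢
  have h := hf.comp_sub_left (2 * π)
  simp only [sub_zero, sub_self] at h
  refine h.symm.congr fun θ _ => ?_
  unfold tau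
  rw [show (2 * π - θ) / 2 = π - θ / 2 by ring, Real.tan_pi_sub]

theorem cay_w (θ : ℝ) : circleMap 0 1 θ =
    (((Real.cos (θ / 2) : ℝ) : ℂ) + ((Real.sin (θ / 2) : ℝ) : ℂ) * I) ^ 2 := by
  rw [circleMap]
  push_cast
  rw [zero_add, one_mul, ← Complex.exp_mul_I, ← Complex.exp_nat_mul]
  congr 1
  push_cast
  ring

theorem cay_add {c s : ℝ} (hcs : c ^ 2 + s ^ 2 = 1) :
    ((c : ℂ) + (s : ℂ) * I) ^ 2 + 1 = 2 * c * (c + s * I) := by
  have h : (c : ℂ) ^ 2 + (s : ℂ) ^ 2 = 1 := by exact_mod_cast hcs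
  linear_combination ((s : ℂ) ^ 2) * Complex.I_sq - h

theorem cay_sub {c s : ℝ} (hcs : c ^ 2 + s ^ 2 = 1) :
    ((c : ℂ) + (s : ℂ) * I) ^ 2 - 1 = 2 * I * s * (c + s * I) := by
  have h : (c : ℂ) ^ 2 + (s : ℂ) ^ 2 = 1 := by exact_mod_cast hcs
  linear_combination (-((s : ℂ) ^ 2)) * Complex.I_sq + h

theorem cay_ne {θ : ℝ} (hc : Real.cos (θ / 2) ≠ 0) : circleMap 0 1 θ + 1 ≠ 0 := by
  rw [cay_w, cay_add (Real.cos_sq_add_sin_sq (θ / 2))]
  refine mul_ne_zero (mul_ne_zero two_ne_zero (by exact_mod_cast hc)) ?_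
  generalize Real.cos (θ / 2) = c at *
  generalize Real.sin (θ / 2) = s at *
  intro h
  have h1 := congrArg Complex.re h
  simp at h1
  exact hc h1

/-- Key algebra: the Cayley transform. -/
theorem cay (x h : ℝ) (z : ℂ) (θ : ℝ) (hc : Real.cos (θ / 2) ≠ 0) :
    ‖((x + h * tau θ : ℝ) : ℂ) - z‖ * ‖circleMap 0 1 θ + 1‖ =
      ‖(x - z - I * h) * circleMap 0 1 θ + (x - z + I * h)‖ := by
  rw [← norm_mul]
  congr 1
  have hcs := Real.cos_sq_add_sin_sq (θ / 2)
  rw [cay_w, cay_add hcs]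
  have ht : tau θ = Real.sin (θ / 2) / Real.cos (θ / 2) := by
    rw [tau, Real.tan_eq_sin_div_cos]
  rw [ht]
  have h2 := cay_sub hcs
  have h1 := cay_add hcs
  have hc' : ((Real.cos (θ / 2) : ℝ) : ℂ) ≠ 0 := by exact_mod_cast hc
  generalize Real.cos (θ / 2) = c at *
  generalize Real.sin (θ / 2) = s at *
  have h3 : (x - z - I * h) * ((c : ℂ) + s * I) ^ 2 + (x - z + I * h) =
      (x - z) * (((c : ℂ) + s * I) ^ 2 + 1) - I * h * (((c : ℂ) + s * I) ^ 2 - 1) := by ring
  rw [h3, h1, h2]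
  push_cast
  field_simp
  linear_combination (h * s * ((c : ℂ) + s * I)) * Complex.I_sq

theorem cos_ne {θ : ℝ} (h0 : 0 < θ) (h1 : θ ≤ 2 * π) (h2 : θ ≠ π) : Real.cos (θ / 2) ≠ 0 := by
  rcases lt_or_gt_of_ne h2 with h | h
  · exact (Real.cos_pos_of_mem_Ioo ⟨by linarith, by linarith⟩).ne'
  · exact (Real.cos_neg_of_pi_div_two_lt_of_lt (by linarith) (by linarith [Real.pi_pos])).ne

theorem ae_kap {P : ℝ → Prop} (h : ∀ θ, 0 < θ → θ ≤ 2 * π → θ ≠ π → P θ) : ∀ᵐ θ ∂kap, P θ := by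
  have h1 : ∀ᵐ θ ∂(volume.restrict (Ioc 0 (2 * π))), θ ∈ Ioc 0 (2 * π) :=
    ae_restrict_mem measurableSet_Ioc
  have h2 : ∀ᵐ θ ∂(volume.restrict (Ioc 0 (2 * π))), θ ≠ π := by
    refine ae_restrict_of_ae ?_
    have : (volume : Measure ℝ) {π} = 0 := Real.volume_singleton
    exact compl_mem_ae_iff.2 this
  have h3 : ∀ᵐ θ ∂(volume.restrict (Ioc 0 (2 * π))), P θ := by
    filter_upwards [h1, h2] with θ h4 h5 using h θ h4.1 h4.2 h5
  exact Measure.ae_smul_measure h3 _

/-- The formula for the logarithm. -/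
theorem log_formula {h : ℝ} (hh : 0 < h) (x : ℝ) {z : ℂ} (hz : 0 ≤ z.im) :
    Integrable (fun θ => Real.log ‖((x + h * tau θ : ℝ) : ℂ) - z‖) kap ∧
      ∫ θ, Real.log ‖((x + h * tau θ : ℝ) : ℂ) - z‖ ∂kap = Real.log ‖(x : ℂ) - z - I * h‖ := by
  set a : ℂ := x - z - I * h with ha
  set b : ℂ := x - z + I * h with hb
  have ha0 : a ≠ 0 := by
    intro h0
    have : a.im = 0 := by rw [h0]; rfl
    rw [ha] at this
    simp at this
    linarith
  have hba : ‖b / a‖ ≤ 1 := by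
    rw [norm_div, div_le_one (norm_pos_iff.2 ha0)]
    rw [Complex.norm_def, Complex.norm_def]
    refine Real.sqrt_le_sqrt ?_
    rw [ha, hb, Complex.normSq_apply, Complex.normSq_apply]
    simp
    nlinarith
  have hci : ∀ c : ℂ, IntervalIntegrable (fun θ => Real.log ‖circleMap 0 1 θ - c‖) volume 0
      (2 * π) := fun c => circleIntegrable_log_norm_sub_const (c := 0) (a := c) 1
  have hce : ∀ c : ℂ, ‖c‖ ≤ 1 →
      (2 * π)⁻¹ * ∫ θ in (0 : ℝ)..(2 * π), Real.log ‖circleMap 0 1 θ - c‖ = 0 := by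
    intro c hc
    have := circleAverage_log_norm_sub_const_of_mem_closedBall (R := 1) (c := 0) (a := c)
      (by simpa using hc)
    rw [Real.circleAverage_def, Real.log_one, smul_eq_mul] at this
    exact this
  have hpt : ∀ θ, 0 < θ → θ ≤ 2 * π → θ ≠ π → circleMap 0 1 θ ≠ -(b / a) →
        Real.log ‖((x + h * tau θ : ℝ) : ℂ) - z‖ =
        Real.log ‖a‖ + Real.log ‖circleMap 0 1 θ - (-(b / a))‖ -
          Real.log ‖circleMap 0 1 θ - (-1)‖ := by
    intro θ h1 h2 h3 h7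
    have hc := cos_ne h1 h2 h3
    have h4 := cay x h z θ hc
    rw [← ha, ← hb] at h4
    have h5 : a * circleMap 0 1 θ + b = a * (circleMap 0 1 θ - (-(b / a))) := by
      field_simp
      ring
    rw [h5, norm_mul] at h4
    have h6 : ‖circleMap 0 1 θ + 1‖ ≠ 0 := norm_ne_zero_iff.2 (cay_ne hc)
    have h7' : ‖circleMap 0 1 θ - (-(b / a))‖ ≠ 0 := norm_ne_zero_iff.2 (sub_ne_zero.2 h7)
    have h8 : ‖((x + h * tau θ : ℝ) : ℂ) - z‖ =
        ‖a‖ * ‖circleMap 0 1 θ - (-(b / a))‖ / ‖circleMap 0 1 θ - (-1)‖ := by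
      rw [sub_neg_eq_add _ (1 : ℂ), eq_div_iff h6, h4]
    rw [h8, Real.log_div (mul_ne_zero (norm_ne_zero_iff.2 ha0) h7')
      (by rw [sub_neg_eq_add]; exact h6), Real.log_mul (norm_ne_zero_iff.2 ha0) h7']
  set g : ℝ → ℝ := fun θ => Real.log ‖a‖ + Real.log ‖circleMap 0 1 θ - (-(b / a))‖ -
          Real.log ‖circleMap 0 1 θ - (-1)‖ with hg
  have hgi : IntervalIntegrable g volume 0 (2 * π) :=
    (intervalIntegrable_const.add (hci _)).sub (hci _)
  have hgv : (2 * π)⁻¹ * ∫ θ in (0 : ℝ)..(2 * π), g θ = Real.log ‖a‖ := by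
    have e1 := hce (-(b / a)) (by rw [norm_neg]; exact hba)
    have e2 := hce (-1) (by simp)
    rw [hg, intervalIntegral.integral_sub (intervalIntegrable_const.add (hci _)) (hci _),
      intervalIntegral.integral_add intervalIntegrable_const (hci _), mul_sub, mul_add,
      e1, e2, intervalIntegral.integral_const, sub_zero, smul_eq_mul]
    field_simp
    ring
  have hnull : ∀ᵐ θ ∂kap, circleMap 0 1 θ ≠ -(b / a) := by
    have h1 : (circleMap 0 1 ⁻¹' {-(b / a)}).Countable :=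
      (Set.countable_singleton _).preimage_circleMap 0 one_ne_zero
    have h2 : ∀ᵐ θ ∂(volume : Measure ℝ), θ ∉ circleMap 0 1 ⁻¹' {-(b / a)} :=
      h1.ae_notMem volume
    have h3 : ∀ᵐ θ ∂(volume.restrict (Ioc 0 (2 * π))), circleMap 0 1 θ ≠ -(b / a) :=
      ae_restrict_of_ae h2
    exact Measure.ae_smul_measure h3 _
  have hae : ∀ᵐ θ ∂kap, Real.log ‖((x + h * tau θ : ℝ) : ℂ) - z‖ = g θ := by
    filter_upwards [hnull, ae_kap (P := fun θ => circleMap 0 1 θ ≠ -(b / a) →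
      Real.log ‖((x + h * tau θ : ℝ) : ℂ) - z‖ = g θ) hpt] with θ h1 h2 using h2 h1
  rw [integral_congr_ae hae, integral_kap, hgv]
  exact ⟨(integrable_congr hae).2 (integrable_kap.2 hgi), rfl⟩

end Pool.Agent.Be22R
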