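import Pool.Agent.W_MP_be22fd_co_rk.Ker

/-! # Functions of logarithmic growth

`LG u`: the translates of `u` by the Cauchy variable are integrable, uniformly enough for Fubini.
The class is closed under sums, multiples and domination and contains `log |x - z|`. -/

set_option autoImplicit false

noncomputable section

open MeasureTheory Set Complex
open scoped Real ENNReal

namespace Pool.Agent.Be22R

/-- Logarithmic growth. -/
structure LG (u : ℝ → ℝ) : Prop where
  meas : Measurable u
  sec : ∀ h x : ℝ, Integrable (fun θ => u (x + h * tau θ)) kap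
  prod : ∀ h A : ℝ, Integrable (fun q : ℝ × ℝ => u (q.1 + h * tau q.2))
    ((volume.restrict (Icc (-A) A)).prod kap)

theorem shear_meas (h : ℝ) : Measurable (fun q : ℝ × ℝ => q.1 + h * tau q.2) :=
  measurable_fst.add ((tau_meas.comp measurable_snd).const_mul h)

theorem shear_meas1 (h x : ℝ) : Measurable (fun θ : ℝ => x + h * tau θ) :=
  (tau_meas.const_mul h).const_add x

theorem LG.mono {u v : ℝ → ℝ} (hu : Measurable u) (hv : LG v) (h : ∀ x, |u x| ≤ |v x|) : LG u where
  meas := hu
  sec := fun k x => (hv.sec k x).mono (hu.comp (shear_meas1 k x)).aestronglyMeasurable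
    (Filter.Eventually.of_forall fun θ => by
      rw [Real.norm_eq_abs, Real.norm_eq_abs]; exact h _)
  prod := fun k A => (hv.prod k A).mono (hu.comp (shear_meas k)).aestronglyMeasurable
    (Filter.Eventually.of_forall fun θ => by
      rw [Real.norm_eq_abs, Real.norm_eq_abs]; exact h _)

theorem LG.abs {u : ℝ → ℝ} (hu : LG u) : LG (fun x => |u x|) :=
  LG.mono (measurable_norm.comp hu.meas) hu fun x => by rw [abs_abs]

theorem LG.add {u v : ℝ → ℝ} (hu : LG u) (hv : LG v) : LG (fun x => u x + v x) where
  meas := hu.meas.add hv.meas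
  sec := fun k x => (hu.sec k x).add (hv.sec k x)
  prod := fun k A => (hu.prod k A).add (hv.prod k A)

theorem LG.const_mul {u : ℝ → ℝ} (hu : LG u) (c : ℝ) : LG (fun x => c * u x) where
  meas := hu.meas.const_mul c
  sec := fun k x => (hu.sec k x).const_mul c
  prod := fun k A => (hu.prod k A).const_mul c

theorem LG.sub {u v : ℝ → ℝ} (hu : LG u) (hv : LG v) : LG (fun x => u x - v x) where
  meas := hu.meas.sub hv.meas
  sec := fun k x => (hu.sec k x).sub (hv.sec k x)
  prod := fun k A => (hu.prod k A).sub (hv.prod k A)

theorem LG_const (c : ℝ) : LG (fun _ => c) where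
  meas := measurable_const
  sec := fun _ _ => integrable_const c
  prod := fun _ _ => integrable_const c

theorem LG_sum {ι : Type*} (s : Finset ι) {u : ι → ℝ → ℝ} (hu : ∀ i ∈ s, LG (u i)) :
    LG (fun x => ∑ i ∈ s, u i x) := by
  classical
  induction s using Finset.induction_on with
  | empty => simpa using LG_const 0
  | insert a s ha ih =>
    have h1 := (hu a (Finset.mem_insert_self a s)).add
      (ih fun i hi => hu i (Finset.mem_insert_of_mem hi))
    simpa [Finset.sum_insert ha] using h1

theorem LG_msum (s : Multiset ℂ) {u : ℂ → ℝ → ℝ} (hu : ∀ z, LG (u z)) :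
    LG (fun x => (s.map fun z => u z x).sum) := by
  induction s using Multiset.induction_on with
  | empty => simpa using LG_const 0
  | cons a s ih => simpa using (hu a).add ih

/-- `log |x - z|`. -/
def lg (z : ℂ) (x : ℝ) : ℝ := Real.log ‖(x : ℂ) - z‖

theorem lg_meas (z : ℂ) : Measurable (lg z) := by
  unfold lg
  fun_prop

theorem lg_conj (z : ℂ) (x : ℝ) : lg ((starRingEnd ℂ) z) x = lg z x := by
  unfold lg
  congr 1
  rw [← Complex.norm_conj, map_sub, Complex.conj_ofReal, Complex.conj_conj]

/-- The negative part of the logarithm. -/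
def ell (y : ℝ) : ℝ := max 0 (-Real.log |y|)

theorem ell_nonneg (y : ℝ) : 0 ≤ ell y := le_max_left _ _

theorem ell_meas : Measurable ell := by
  unfold ell
  fun_prop

theorem ell_integrable : Integrable ell := by
  have h1 : IntegrableOn ell (Icc (-1) 1) := by
    have h2 : IntegrableOn (fun y : ℝ => Real.log y) (Icc (-1) 1) := by
      have := (intervalIntegral.intervalIntegrable_log' (a := -1) (b := 1))
      rw [intervalIntegrable_iff_integrableOn_Icc_of_le (by norm_num)] at this
      exact this
    refine Integrable.mono h2 ell_meas.aestronglyMeasurable ?_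
    refine Filter.Eventually.of_forall fun y => ?_
    rw [Real.norm_eq_abs, Real.norm_eq_abs, abs_of_nonneg (ell_nonneg y), ell, Real.log_abs]
    exact max_le (abs_nonneg _) (neg_le_abs _)
  have h3 : ell = (Icc (-1 : ℝ) 1).indicator ell := by
    funext y
    by_cases hy : y ∈ Icc (-1 : ℝ) 1
    · rw [indicator_of_mem hy]
    · rw [indicator_of_notMem hy]
      have h4 : 1 ≤ |y| := by
        by_contra h5
        push Not at h5
        exact hy ⟨(abs_lt.1 h5).1.le, (abs_lt.1 h5).2.le⟩
      exact max_eq_left (by linarith [Real.log_nonneg h4])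
  rw [h3, integrable_indicator_iff measurableSet_Icc]
  exact h1

theorem lg_le (z : ℂ) (x s : ℝ) : |lg z (x + s)| ≤
    Real.log (1 + |x| + ‖z‖) + Real.log (1 + |s|) + (ell (x + s - z.re) + |Real.log z.im|) := by
  have h1 : 0 ≤ Real.log (1 + |x| + ‖z‖) := Real.log_nonneg (by
    have := abs_nonneg x
    have := norm_nonneg z
    linarith)
  have h2 : 0 ≤ Real.log (1 + |s|) := Real.log_nonneg (by have := abs_nonneg s; linarith)
  have h3 := ell_nonneg (x + s - z.re)
  have h4 := abs_nonneg (Real.log z.im)
  unfold lg
  set r : ℝ := ‖((x + s : ℝ) : ℂ) - z‖ with hr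
  rcases eq_or_ne r 0 with h0 | h0
  · rw [h0, Real.log_zero, abs_zero]
    linarith
  have hr0 : 0 < r := lt_of_le_of_ne (norm_nonneg _) (Ne.symm h0)
  have hre : |x + s - z.re| ≤ r := by
    have := Complex.abs_re_le_norm (((x + s : ℝ) : ℂ) - z)
    rwa [Complex.sub_re, Complex.ofReal_re] at this
  have him : |z.im| ≤ r := by
    have := Complex.abs_im_le_norm (((x + s : ℝ) : ℂ) - z)
    rwa [Complex.sub_im, Complex.ofReal_im, zero_sub, abs_neg] at this
  have hup : r ≤ (1 + |x| + ‖z‖) * (1 + |s|) := by
    have h5 : r ≤ |x| + |s| + ‖z‖ := by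
      calc r ≤ ‖((x + s : ℝ) : ℂ)‖ + ‖z‖ := norm_sub_le _ _
        _ = |x + s| + ‖z‖ := by rw [Complex.norm_real, Real.norm_eq_abs]
        _ ≤ _ := by linarith [abs_add_le x s]
    have h6 : 0 ≤ (|x| + ‖z‖) * |s| := by positivity
    nlinarith
  have hx : 0 < 1 + |x| + ‖z‖ := by positivity
  have hs : 0 < 1 + |s| := by positivity
  rw [abs_le]
  constructor
  · by_cases h7 : x + s - z.re = 0
    · have h8 : z.im ≠ 0 := by
        intro h9
        apply h0
        rw [hr, norm_eq_zero]
        apply Complex.ext
        · rw [Complex.sub_re, Complex.ofReal_re]; exact h7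
        · rw [Complex.sub_im, Complex.ofReal_im, h9]; simp
      have h9 : Real.log |z.im| ≤ Real.log r := Real.log_le_log (abs_pos.2 h8) him
      rw [Real.log_abs] at h9
      have h10 := neg_abs_le (Real.log z.im)
      linarith
    · have h9 : Real.log |x + s - z.re| ≤ Real.log r := Real.log_le_log (abs_pos.2 h7) hre
      have h10 : -Real.log |x + s - z.re| ≤ ell (x + s - z.re) := le_max_right _ _
      linarith
  · have h9 : Real.log r ≤ Real.log ((1 + |x| + ‖z‖) * (1 + |s|)) := Real.log_le_log hr0 hup
    rw [Real.log_mul hx.ne' hs.ne'] at h9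
    linarith

theorem lg_sec (z : ℂ) (h x : ℝ) : Integrable (fun θ => lg z (x + h * tau θ)) kap := by
  have key : ∀ z : ℂ, 0 ≤ z.im → ∀ h x : ℝ, 0 ≤ h →
      Integrable (fun θ => lg z (x + h * tau θ)) kap := by
    intro z hz h x hh
    rcases hh.eq_or_lt with h0 | h0
    · rw [← h0]
      simp only [zero_mul]
      exact integrable_const _
    · exact (log_formula h0 x hz).1
  have key2 : ∀ z : ℂ, ∀ h x : ℝ, 0 ≤ h →
      Integrable (fun θ => lg z (x + h * tau θ)) kap := by
    intro z h x hh
    rcases le_total 0 z.im with hz | hz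
    · exact key z hz h x hh
    · have := key ((starRingEnd ℂ) z) (by simpa using hz) h x hh
      simpa only [lg_conj] using this
  rcases le_total 0 h with hh | hh
  · exact key2 z h x hh
  · have h1 := key2 z (-h) x (by linarith)
    have h2 := integrable_symm (f := fun t => lg z (x + -h * t)) h1
    simpa only [mul_neg, neg_mul, neg_neg] using h2

theorem log_one_add_sec (h : ℝ) : Integrable (fun θ => Real.log (1 + |h * tau θ|)) kap := by
  have h1 := (lg_sec Complex.I h 0).abs.add (integrable_const (Real.log 2))
  refine Integrable.mono h1 ?_ (Filter.Eventually.of_forall fun θ => ?_)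
  · have : Measurable fun θ => Real.log (1 + |h * tau θ|) := by
      have := tau_meas
      fun_prop
    exact this.aestronglyMeasurable
  · simp only [Pi.add_apply, zero_add]
    set s : ℝ := h * tau θ with hs
    have h2 : 0 ≤ Real.log (1 + |s|) := Real.log_nonneg (by have := abs_nonneg s; linarith)
    have h3 : 0 ≤ |lg Complex.I s| + Real.log 2 := by
      have := Real.log_nonneg (one_le_two)
      positivity
    rw [Real.norm_eq_abs, Real.norm_eq_abs, abs_of_nonneg h2, abs_of_nonneg h3]
    have h4 : 1 + |s| ≤ ‖((s : ℝ) : ℂ) - I‖ * 2 := by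
      have h5 : |s| ≤ ‖((s : ℝ) : ℂ) - I‖ := by
        have := Complex.abs_re_le_norm (((s : ℝ) : ℂ) - I)
        simpa using this
      have h6 : 1 ≤ ‖((s : ℝ) : ℂ) - I‖ := by
        have := Complex.abs_im_le_norm (((s : ℝ) : ℂ) - I)
        simpa using this
      linarith
    have h7 : Real.log (1 + |s|) ≤ Real.log (‖((s : ℝ) : ℂ) - I‖ * 2) :=
      Real.log_le_log (by positivity) h4
    have h8 : ‖((s : ℝ) : ℂ) - I‖ ≠ 0 := by
      intro h9
      rw [h9] at h4
      have := abs_nonneg s
      linarith
    rw [Real.log_mul h8 two_ne_zero] at h7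
    have h9 := le_abs_self (lg Complex.I s)
    unfold lg at h9 ⊢
    linarith

theorem LG_lg (z : ℂ) : LG (lg z) where
  meas := lg_meas z
  sec := lg_sec z
  prod := by
    intro h A
    have e1 : Integrable (fun q : ℝ × ℝ => Real.log (1 + |q.1| + ‖z‖) * (1 : ℝ))
        ((volume.restrict (Icc (-A) A)).prod kap) := by
      refine Integrable.mul_prod (f := fun x : ℝ => Real.log (1 + |x| + ‖z‖))
        (g := fun _ : ℝ => (1 : ℝ)) ?_ (integrable_const _)
      have : ContinuousOn (fun x : ℝ => Real.log (1 + |x| + ‖z‖)) (Icc (-A) A) := by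
        apply Continuous.continuousOn
        refine Continuous.log (by fun_prop) fun x => ?_
        positivity
      exact this.integrableOn_Icc
    have e2 : Integrable (fun q : ℝ × ℝ => (1 : ℝ) * Real.log (1 + |h * tau q.2|))
        ((volume.restrict (Icc (-A) A)).prod kap) :=
      Integrable.mul_prod (f := fun _ : ℝ => (1 : ℝ))
        (g := fun θ : ℝ => Real.log (1 + |h * tau θ|)) (integrable_const _) (log_one_add_sec h)
    have e3 : Integrable (fun q : ℝ × ℝ => ell (q.1 + h * tau q.2 - z.re))
        ((volume.restrict (Icc (-A) A)).prod kap) := by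
      have hm : Measurable (fun q : ℝ × ℝ => ell (q.1 + h * tau q.2 - z.re)) :=
        ell_meas.comp ((shear_meas h).sub_const z.re)
      have e4 : Integrable (fun q : ℝ × ℝ => ell (q.1 + h * tau q.2 - z.re))
          (volume.prod kap) := by
        rw [integrable_prod_iff' hm.aestronglyMeasurable]
        constructor
        · refine Filter.Eventually.of_forall fun θ => ?_
          have := ell_integrable.comp_add_right (h * tau θ - z.re)
          refine this.congr (Filter.Eventually.of_forall fun x => ?_)
          simp only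
          congr 1
          ring
        · have : (fun y => ∫ x, ‖ell (x + h * tau y - z.re)‖) = fun _ => ∫ x, ‖ell x‖ := by
            funext θ
            have := integral_add_right_eq_self (μ := (volume : Measure ℝ)) (fun x => ‖ell x‖)
              (h * tau θ - z.re)
            rw [← this]
            congr 1
            funext x
            congr 2
            ring
          simp only
          rw [this]
          exact integrable_const _
      have e6 : (volume.restrict (Icc (-A) A)).prod kap =
          (volume.prod kap).restrict (Icc (-A) A ×ˢ univ) := by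
        rw [← Measure.prod_restrict, Measure.restrict_univ]
      rw [e6]
      exact e4.restrict
    have e5 : Integrable (fun _ : ℝ × ℝ => |Real.log z.im|)
        ((volume.restrict (Icc (-A) A)).prod kap) := integrable_const _
    refine Integrable.mono' ((e1.add e2).add (e3.add e5))
      ((lg_meas z).comp (shear_meas h)).aestronglyMeasurable
      (Filter.Eventually.of_forall fun q => ?_)
    simp only [Pi.add_apply, mul_one, one_mul, Real.norm_eq_abs]
    exact lg_le z q.1 (h * tau q.2)

end Pool.Agent.Be22R
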